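import Pool.Agent.Helper24.GammaNeg

/-!
MP_274814_nt: an upper bound for `tr.deg F_q` valid for every `q > 2`.

Write `G(x)` for the class of `log Γ(x)` modulo logarithms of positive algebraic numbers and
rational multiples of `log π`.  It is an odd distribution on `ℚ/ℤ` with values in a `ℚ`-vector
space.  For a Dirichlet character `χ` mod `q` the `χ`-component of `(G(a/q))_{(a,q)=1}` is zero if
`χ` is even, and also if the primitive character inducing `χ` is `1` at some prime `p ∣ q` (the
Euler factor at `p` vanishes).  So the rank of the primitive values is at most the number of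
remaining characters.
-/

set_option autoImplicit false

namespace Pool.Agent.Results.MP_274814_nt.CharacterBound

open Pool.Agent.Helper24.LRDefs

/-- `tr.deg F_q` is at most `1` plus the number of odd characters mod `q` with non-vanishing Euler
factors at the primes dividing `q`. -/
theorem result : ∀ q : ℕ, 2 < q →
    Algebra.trdeg ℚ (F q) ≤
      ((1 + Nat.card {χ : DirichletCharacter ℂ q // χ.Odd ∧
        ∀ p : ℕ, p.Prime → p ∣ q → χ.primitiveCharacter (p : ZMod χ.conductor) ≠ 1} : ℕ) :
          Cardinal) :=
  fun q hq => Pool.Agent.Helper24.GammaTr.trdeg_F_le q hq

end Pool.Agent.Results.MP_274814_nt.CharacterBound
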