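import Pool.Agent.Helper24.GammaFull

/-!
MP_274814_nt: for every `q > 2`, the inequality of Q1 for the field `F_q` generated by `π` and the
primitive values `Γ(a/q)`, `gcd(a,q) = 1`, holds if and only if (i) for every prime `p ∣ q`, `-1` is
a power of `p` modulo the `p`-free part of `q`, and (ii) the same inequality holds for the field
generated by `π` and all the values `Γ(a/q)`, `1 ≤ a ≤ q - 1`.
-/

set_option autoImplicit false

namespace Pool.Agent.Helper24.Old.ReductionToAll

open Pool.Agent.Helper24.LRDefs

/-- Exact relation between the inequality of Q1 for the primitive Gamma values of level `q` and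
the same inequality for all the Gamma values of level `q`. -/
theorem result : ∀ q : ℕ, 2 < q →
    ((((1 + Nat.totient q / 2 : ℕ) : Cardinal) ≤ Algebra.trdeg ℚ (F q)) ↔
      ((∀ p : ℕ, p.Prime → p ∣ q →
          ∃ k : ℕ, (p : ZMod (q / p ^ q.factorization p)) ^ k = -1) ∧
        ((1 + Nat.totient q / 2 : ℕ) : Cardinal) ≤ Algebra.trdeg ℚ (Fall q))) := by
  intro q hq
  constructor
  · intro h
    have hpow : ∀ p : ℕ, p.Prime → p ∣ q →
        ∃ k : ℕ, (p : ZMod (q / p ^ q.factorization p)) ^ k = -1 := by
      intro p hp hpq
      by_contra hcon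
      push Not at hcon
      have h1 := h.trans (Pool.Agent.Helper24.GammaNeg.fails q hq hp hpq hcon)
      rw [Nat.cast_le] at h1
      omega
    refine ⟨hpow, ?_⟩
    rw [← Pool.Agent.Helper24.GammaFull.trdeg_eq q hq hpow]
    exact h
  · rintro ⟨hpow, h⟩
    rw [Pool.Agent.Helper24.GammaFull.trdeg_eq q hq hpow]
    exact h

end Pool.Agent.Helper24.Old.ReductionToAll
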